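import Pool.Agent.Q105.LAT.Stm

set_option autoImplicit false

/-!
LAT4: the criterion for linear forest decompositions of blow-ups with classes of different sizes.
-/

namespace Pool.Agent.Q150.LAT

open Finset SimpleGraph H931R3.LA Pool.Agent.W111.LAR Pool.Agent.Q105.LAB Pool.Agent.Q105.LAT

theorem even_sq' {X : Type} [DecidableEq X] (f : X → X → ℕ) (h1 : ∀ x y, f x y = f y x)
    (h2 : ∀ x, Even (f x x)) (C : Finset X) : Even (∑ y ∈ C, ∑ v ∈ C, f y v) := by
  induction C using Finset.induction_on with
  | empty => simp
  | insert a C ha ih =>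
    rw [sum_insert ha, sum_insert ha]
    have h3 : ∑ y ∈ C, ∑ v ∈ insert a C, f y v = ∑ y ∈ C, f a y + ∑ y ∈ C, ∑ v ∈ C, f y v := by
      rw [← sum_add_distrib]
      refine sum_congr rfl fun y _ => ?_
      rw [sum_insert ha, h1]
    rw [h3]
    obtain ⟨r, hr⟩ := ih
    obtain ⟨t, ht⟩ := h2 a
    exact ⟨t + ∑ y ∈ C, f a y + r, by rw [hr, ht]; ring⟩

section amal

variable {V J : Type} {s : V → ℕ}

theorem base_sum [Fintype V] (hs : ∀ v, 1 ≤ s v) (f : V → ℕ) :
    ∑ y : (Σ v, Fin (s v)), (if y.2.val = 0 then f y.1 else 0) = ∑ v, f v := by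
  rw [Fintype.sum_sigma]
  refine sum_congr rfl fun v _ => ?_
  show ∑ b : Fin (s v), (if b.val = 0 then f v else 0) = f v
  rw [sum_eq_single (⟨0, hs v⟩ : Fin (s v))]
  · simp
  · intro b _ hb
    rw [if_neg]
    intro h
    exact hb (Fin.ext h)
  · intro h
    exact absurd (mem_univ _) h

theorem base_eq {x y : Σ v, Fin (s v)} (hx : x.2.val = 0) (hy : y.2.val = 0) (h : x.1 = y.1) :
    x = y := by
  obtain ⟨u, a⟩ := x
  obtain ⟨v, b⟩ := y
  simp only at h hx hy
  subst h
  have : a = b := Fin.ext (by rw [hx, hy])
  rw [this]

open Classical in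
/-- Multiplicities of the blow-up with an additional vertex. -/
noncomputable def mup (A : V → V → Prop) (s : V → ℕ) (β : V → ℕ) :
    Option (Σ v, Fin (s v)) → Option (Σ v, Fin (s v)) → ℕ
  | none, none => 0
  | none, some y => β y.1
  | some x, none => β x.1
  | some x, some y => if A x.1 y.1 then 1 else 0

/-- Weights. -/
def wp (s : V → ℕ) : Option (Σ v, Fin (s v)) → ℕ
  | none => 1
  | some x => if x.2.val = 0 then s x.1 else 0

/-- Multiplicities. -/
def np (s : V → ℕ) (N : J → V → V → ℕ) (T : J → V → ℕ) (j : J) :
    Option (Σ v, Fin (s v)) → Option (Σ v, Fin (s v)) → ℕ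
  | none, none => 0
  | none, some y => if y.2.val = 0 then T j y.1 else 0
  | some x, none => if x.2.val = 0 then T j x.1 else 0
  | some x, some y => if x.2.val = 0 ∧ y.2.val = 0 then N j x.1 y.1 else 0

/-- Degrees. -/
def dp [Fintype V] (s : V → ℕ) (T : J → V → ℕ) (j : J) : Option (Σ v, Fin (s v)) → ℕ
  | none => ∑ v, T j v
  | some _ => 2

open Classical in
/-- the number of the neighbours -/
noncomputable def dA [Fintype V] (A : V → V → Prop) (s : V → ℕ) (v : V) : ℕ :=
  ∑ u, if A v u then (if v = u then s v - 1 else s u) else 0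

theorem sum_ee [Fintype V] (A : V → V → Prop) (s : V → ℕ) (v : V) :
    ∑ u, ee A s v u = s v * dA A s v := by
  classical
  unfold dA ee
  rw [mul_sum]
  refine sum_congr rfl fun u _ => ?_
  split_ifs <;> simp

theorem crit [Fintype V] [Fintype J] (hDet : S_Det) (A : V → V → Prop) (N : J → V → V → ℕ)
    (hA : ∀ u v, A u v → A v u) (hs : ∀ v, 1 ≤ s v) (hsym : ∀ j u v, N j u v = N j v u)
    (hev : ∀ j u, Even (N j u u)) (htot : ∀ u v, ∑ j, N j u v = ee A s u v)
    (hdeg : ∀ j u, ∑ v, N j u v ≤ 2 * s u)
    (hdef : ∀ j v, ∃ u, (cg N j).Reachable v u ∧ ∑ w, N j u w < 2 * s u) :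
    Cov (blw A s) (Fintype.card J) := by
  classical
  let T : J → V → ℕ := fun j v => 2 * s v - ∑ u, N j v u
  let β : V → ℕ := fun v => 2 * Fintype.card J - dA A s v
  have hNdeg : ∀ v, ∑ j, ∑ u, N j v u = s v * dA A s v := by
    intro v
    rw [sum_comm, ← sum_ee]
    exact sum_congr rfl fun u _ => htot v u
  have hTN : ∀ j v, T j v + ∑ u, N j v u = 2 * s v := by
    intro j v
    have := hdeg j v
    show 2 * s v - ∑ u, N j v u + ∑ u, N j v u = 2 * s v
    omega
  have hT : ∀ v, ∑ j, T j v = s v * β v := by
    intro v
    have h1 : ∑ j, T j v + ∑ j, ∑ u, N j v u = Fintype.card J * (2 * s v) := by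
      rw [← sum_add_distrib, sum_congr rfl (fun j _ => hTN j v), sum_const, card_univ, smul_eq_mul]
    rw [hNdeg] at h1
    show _ = s v * (2 * Fintype.card J - dA A s v)
    rw [Nat.mul_sub]
    have h2 : s v * (2 * Fintype.card J) = Fintype.card J * (2 * s v) := by ring
    omega
  have hconn : ∀ j (v : V), (cg (np s N T) j).Reachable (some ⟨v, ⟨0, hs v⟩⟩) none := by
    intro j v
    obtain ⟨u, hu, hTu⟩ := hdef j v
    have h1 : (cg (np s N T) j).Reachable (some ⟨v, ⟨0, hs v⟩⟩) (some ⟨u, ⟨0, hs u⟩⟩) :=
      hu.map (⟨fun u => some ⟨u, ⟨0, hs u⟩⟩, fun {a b} hab => by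
        refine ⟨fun h => hab.1 (congrArg Sigma.fst (Option.some_injective _ h)), ?_⟩
        rcases hab.2 with h | h
        · left
          show 0 < if ((0 : ℕ) = 0 ∧ (0 : ℕ) = 0) then N j a b else 0
          rw [if_pos ⟨rfl, rfl⟩]
          exact h
        · right
          show 0 < if ((0 : ℕ) = 0 ∧ (0 : ℕ) = 0) then N j b a else 0
          rw [if_pos ⟨rfl, rfl⟩]
          exact h⟩ : cg N j →g cg (np s N T) j)
    refine h1.trans (Adj.reachable ⟨by simp, Or.inl ?_⟩)
    show 0 < if (0 : ℕ) = 0 then T j u else 0
    rw [if_pos rfl]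
    show 0 < 2 * s u - ∑ w, N j u w
    omega
  have hAm : AmalL (mup A s β) (dp s T) (wp s) (np s N T) := by
    refine ⟨?_, ?_, ?_, ?_, ?_, ?_⟩
    · rintro j (_ | x) (_ | y)
      · rfl
      · rfl
      · rfl
      · show (if x.2.val = 0 ∧ y.2.val = 0 then N j x.1 y.1 else 0) =
          if y.2.val = 0 ∧ x.2.val = 0 then N j y.1 x.1 else 0
        rw [hsym]
        by_cases h : x.2.val = 0 ∧ y.2.val = 0
        · rw [if_pos h, if_pos h.symm]
        · rw [if_neg h, if_neg (fun h' => h h'.symm)]
    · rintro j (_ | x)
      · exact Even.zero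
      · show Even (if x.2.val = 0 ∧ x.2.val = 0 then N j x.1 x.1 else 0)
        split_ifs
        · exact hev j x.1
        · exact Even.zero
    · rintro (_ | x) (_ | y) hxy
      · exact absurd rfl hxy
      · show ∑ j, (if y.2.val = 0 then T j y.1 else 0) =
          1 * ((if y.2.val = 0 then s y.1 else 0) * β y.1)
        split_ifs
        · rw [hT, one_mul]
        · simp
      · show ∑ j, (if x.2.val = 0 then T j x.1 else 0) =
          (if x.2.val = 0 then s x.1 else 0) * (1 * β x.1)
        split_ifs
        · rw [hT, one_mul]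
        · simp
      · show ∑ j : J, (if x.2.val = 0 ∧ y.2.val = 0 then N j x.1 y.1 else 0) =
          (if x.2.val = 0 then s x.1 else 0) * ((if y.2.val = 0 then s y.1 else 0) *
            (if A x.1 y.1 then 1 else 0))
        by_cases h : x.2.val = 0 ∧ y.2.val = 0
        · have hne : x.1 ≠ y.1 := fun e => hxy (congrArg some (base_eq h.1 h.2 e))
          simp only [if_pos h]
          rw [if_pos h.1, if_pos h.2, htot]
          unfold ee
          by_cases hxy : A x.1 y.1
          · rw [if_pos hxy, if_pos hxy, if_neg hne, mul_one]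
          · rw [if_neg hxy, if_neg hxy, mul_zero, mul_zero]
        · simp only [if_neg h]
          rw [sum_const_zero]
          by_cases h1 : x.2.val = 0
          · have h2 : ¬ y.2.val = 0 := fun h2 => h ⟨h1, h2⟩
            rw [if_neg h2, zero_mul, mul_zero]
          · rw [if_neg h1, zero_mul]
    · rintro (_ | x)
      · show ∑ _j : J, 0 = 1 * ((1 - 1) * 0)
        simp
      · show ∑ j : J, (if x.2.val = 0 ∧ x.2.val = 0 then N j x.1 x.1 else 0) =
          (if x.2.val = 0 then s x.1 else 0) * (((if x.2.val = 0 then s x.1 else 0) - 1) *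
            (if A x.1 x.1 then 1 else 0))
        by_cases h : x.2.val = 0
        · simp only [h, and_self, if_true]
          rw [htot]
          unfold ee
          by_cases hxx : A x.1 x.1
          · rw [if_pos hxx, if_pos hxx, if_pos rfl, mul_one]
          · rw [if_neg hxx, if_neg hxx, mul_zero, mul_zero]
        · simp [h]
    · rintro j (_ | x)
      · rw [Fintype.sum_option]
        show 0 + ∑ y : (Σ v, Fin (s v)), (if y.2.val = 0 then T j y.1 else 0) = 1 * ∑ v, T j v
        rw [zero_add, one_mul]
        exact base_sum hs (fun v => T j v)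
      · rw [Fintype.sum_option]
        show (if x.2.val = 0 then T j x.1 else 0) +
          ∑ y : (Σ v, Fin (s v)), (if x.2.val = 0 ∧ y.2.val = 0 then N j x.1 y.1 else 0) =
          (if x.2.val = 0 then s x.1 else 0) * 2
        by_cases h : x.2.val = 0
        · simp only [h, true_and, if_true]
          rw [base_sum hs (fun v => N j x.1 v), mul_comm (s x.1) 2]
          exact hTN j x.1
        · simp [h]
    · intro j x y hx hy
      have hall : ∀ x, 0 < wp s x → (cg (np s N T) j).Reachable x none := by
        rintro (_ | x) hx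
        · exact Reachable.refl _
        · have hx2 : x.2.val = 0 := by
            by_contra hne
            have : wp s (some x) = 0 := if_neg hne
            omega
          have e1 : x = ⟨x.1, ⟨0, hs x.1⟩⟩ := base_eq hx2 rfl rfl
          rw [e1]
          exact hconn j x.1
      exact (hall x hx).trans (hall y hy).symm
  have hD : ∀ j (x : Option (Σ v, Fin (s v))), Even (dp s T j x) := by
    rintro j (_ | x)
    · show Even (∑ v, T j v)
      have h1 : ∑ v, T j v + ∑ v, ∑ u, N j v u = 2 * ∑ v, s v := by
        rw [← sum_add_distrib, sum_congr rfl (fun v _ => hTN j v), mul_sum]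
      have h2 : Even (∑ v, ∑ u, N j v u) := even_sq' _ (hsym j) (hev j) univ
      have h3 : Even (∑ v, T j v + ∑ v, ∑ u, N j v u) := by
        rw [h1]
        exact even_two_mul _
      exact (Nat.even_add.1 h3).2 h2
    · exact even_two
  obtain ⟨n', hn'⟩ := hDet (Option (Σ v, Fin (s v))) J (Option V) (mup A s β) (dp s T)
    (by
      rintro (_ | x) (_ | y)
      · rfl
      · rfl
      · rfl
      · exact if_congr ⟨hA _ _, hA _ _⟩ rfl rfl)
    hD (Option.map Sigma.fst : Option (Σ v, Fin (s v)) → Option V)
    (by
      rintro (_ | x) (_ | x') (_ | y) h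
      · rfl
      · rfl
      · simp at h
      · simp at h
      · simp at h
      · simp at h
      · have h' : x.1 = x'.1 := Option.some_injective _ h
        show β x.1 = β x'.1
        rw [h']
      · have h' : x.1 = x'.1 := Option.some_injective _ h
        show (if A x.1 y.1 then 1 else 0) = (if A x'.1 y.1 then 1 else 0)
        rw [h'])
    (by
      rintro j (_ | x) (_ | x') hne h
      · exact absurd rfl hne
      · simp at h
      · rfl
      · rfl) (wp s) (np s N T) (by
      rintro (_ | u)
      · have h1 : univ.filter (fun x : Option (Σ v, Fin (s v)) => Option.map Sigma.fst x = none) =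
            {none} := by
          ext x
          cases x <;> simp
        rw [h1, sum_singleton, card_singleton]
        rfl
      · have h1 : univ.filter (fun x : Option (Σ v, Fin (s v)) => Option.map Sigma.fst x = some u) =
            (univ : Finset (Fin (s u))).image (fun a => some ⟨u, a⟩) := by
          ext x
          cases x with
          | none => simp
          | some x =>
            simp only [mem_filter, mem_univ, true_and, mem_image, Option.map_some,
              Option.some.injEq]
            constructor
            · rintro rfl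
              exact ⟨x.2, rfl⟩
            · rintro ⟨a, rfl⟩
              rfl
        have h2 : Function.Injective (fun a : Fin (s u) => (some ⟨u, a⟩ : Option (Σ v, Fin (s v)))) :=
          fun a b h => by
            have h3 := Option.some_injective _ h
            exact eq_of_heq (Sigma.mk.inj h3).2
        rw [h1, sum_image (fun a _ b _ h => h2 h), card_image_of_injective _ h2, card_univ,
          Fintype.card_fin]
        show ∑ a : Fin (s u), (if a.val = 0 then s u else 0) = s u
        rw [sum_eq_single (⟨0, hs u⟩ : Fin (s u))]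
        · simp
        · intro b _ hb
          rw [if_neg]
          intro h
          exact hb (Fin.ext h)
        · intro h
          exact absurd (mem_univ _) h) hAm
  let F : J → SimpleGraph (Σ v, Fin (s v)) := fun j => (cg n' j).comap some
  have hFadj : ∀ j x y, (F j).Adj x y ↔ x ≠ y ∧ 0 < n' j (some x) (some y) := by
    intro j x y
    constructor
    · rintro ⟨h1, h2⟩
      refine ⟨fun h => h1 (congrArg some h), ?_⟩
      rcases h2 with h | h
      · exact h
      · rw [hn'.symm]; exact h
    · rintro ⟨h1, h2⟩
      exact ⟨fun h => h1 (Option.some_injective _ h), Or.inl h2⟩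
  have hsum2 : ∀ j (x : Σ v, Fin (s v)), (univ.filter (fun y => 0 < n' j (some x) y)).card ≤ 2 := by
    intro j x
    have h2 := hn'.deg j (some x)
    rw [one_mul] at h2
    have h3 : dp s T j (some x) = 2 := rfl
    rw [card_eq_sum_ones, ← h3, ← h2]
    refine le_trans (sum_le_sum (fun y hy => ?_)) (sum_le_sum_of_subset (subset_univ _))
    exact (mem_filter.1 hy).2
  have hcard : Nat.card J = Fintype.card J := Nat.card_eq_fintype_card
  rw [← hcard]
  refine cov_of_type F ?_ ?_
  · intro j
    constructor
    · intro v c hc
      have hclosed : ∀ w ∈ c.support, ∀ y, (cg n' j).Adj (some w) y →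
          ∃ w' ∈ c.support, y = some w' := by
        intro w hw y hy
        have h2 := hc.ncard_neighborSet_toSubgraph_eq_two hw
        have hsub : (some '' (c.toSubgraph.neighborSet w) : Set (Option (Σ v, Fin (s v)))) ⊆
            ((univ.filter (fun y => 0 < n' j (some w) y) : Finset _) : Set _) := by
          rintro _ ⟨w', hw', rfl⟩
          have h3 : (F j).Adj w w' := (hw' : c.toSubgraph.Adj w w').adj_sub
          rw [mem_coe, mem_filter]
          exact ⟨mem_univ _, ((hFadj j w w').1 h3).2⟩
        have heq := Set.eq_of_subset_of_ncard_le hsub (by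
          rw [Set.ncard_coe_finset, Set.ncard_image_of_injective _ (Option.some_injective _), h2]
          exact hsum2 j w) (Finset.finite_toSet _)
        have hy' : y ∈ ((univ.filter (fun y => 0 < n' j (some w) y) : Finset _) :
            Set (Option (Σ v, Fin (s v)))) := by
          rw [mem_coe, mem_filter]
          refine ⟨mem_univ _, ?_⟩
          rcases hy.2 with h | h
          · exact h
          · rw [hn'.symm]; exact h
        rw [← heq] at hy'
        obtain ⟨w', hw', rfl⟩ := hy'
        refine ⟨w', ?_, rfl⟩
        have := (hw' : c.toSubgraph.Adj w w').snd_mem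
        rwa [Walk.mem_verts_toSubgraph] at this
      have hr : (cg n' j).Reachable (some v) none :=
        hn'.conn j (some v) none Nat.one_pos Nat.one_pos
      obtain ⟨p⟩ := hr
      have hwalk : ∀ {x y : Option (Σ v, Fin (s v))} (_ : (cg n' j).Walk x y),
          (∃ w ∈ c.support, x = some w) → ∃ w ∈ c.support, y = some w := by
        intro x y p
        induction p with
        | nil => exact id
        | cons h _ ih =>
          rintro ⟨w, hw, rfl⟩
          exact ih (hclosed w hw _ h)
      obtain ⟨w, _, hw⟩ := hwalk p ⟨v, c.start_mem_support, rfl⟩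
      exact absurd hw (by simp)
    · intro x
      have h1 : (some '' ((F j).neighborSet x) : Set (Option (Σ v, Fin (s v)))) ⊆
          ((univ.filter (fun y => 0 < n' j (some x) y) : Finset _) : Set _) := by
        rintro _ ⟨y, hy, rfl⟩
        rw [mem_coe, mem_filter]
        exact ⟨mem_univ _, ((hFadj j x y).1 hy).2⟩
      rw [← Set.ncard_image_of_injective _ (Option.some_injective (Σ v, Fin (s v)))]
      refine le_trans (Set.ncard_le_ncard h1 (Finset.finite_toSet _)) ?_
      rw [Set.ncard_coe_finset]
      exact hsum2 j x
  · have htot1 : ∀ x y : (Σ v, Fin (s v)), x ≠ y → ∑ j, n' j (some x) (some y) =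
        if A x.1 y.1 then 1 else 0 := by
      intro x y hxy
      have h1 := hn'.tot (some x) (some y) (fun e => hxy (Option.some_injective _ e))
      rw [one_mul, one_mul] at h1
      exact h1
    ext x y
    rw [iSup_adj]
    constructor
    · rintro ⟨j, h⟩
      rw [hFadj] at h
      have hAxy : A x.1 y.1 := by
        by_contra hB
        have h5 := htot1 x y h.1
        rw [if_neg hB, sum_eq_zero_iff] at h5
        have := h5 j (mem_univ _)
        omega
      unfold blw
      rw [SimpleGraph.fromRel_adj]
      exact ⟨h.1, Or.inl hAxy⟩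
    · intro hxy
      unfold blw at hxy
      rw [SimpleGraph.fromRel_adj] at hxy
      have hAxy : A x.1 y.1 := by
        rcases hxy.2 with h | h
        · exact h
        · exact hA _ _ h
      have h1 := htot1 x y hxy.1
      rw [if_pos hAxy] at h1
      have h2 : ∃ j, 0 < n' j (some x) (some y) := by
        by_contra hcon
        push Not at hcon
        rw [sum_eq_zero (fun j _ => Nat.le_zero.1 (hcon j))] at h1
        simp at h1
      obtain ⟨j, hj⟩ := h2
      exact ⟨j, (hFadj j x y).2 ⟨hxy.1, hj⟩⟩

end amal

/-- **LAT4** -/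
theorem t_Crit (h : S_Det) : S_Crit := by
  intro V J _ _ A s N hA hs hsym hev htot hdeg hdef
  exact crit h A N hA hs hsym hev htot hdeg hdef

end Pool.Agent.Q150.LAT
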